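import Pool.Agent.MP_ca0a54_nt.H24.Spec
import Pool.Agent.MP_ca0a54_nt.L0.MeanA

/-!
Mean value theorems for Dirichlet polynomials: the bilinear form and the `L^1` form on a shifted
line.
-/

open Complex MeasureTheory Filter Topology

namespace Pool.Agent.MP_ca0a54_nt.H40

open Pool.Agent.MP_ca0a54_nt.L0 Pool.Agent.MP_ca0a54_nt.H24

/-- The normalised coefficients fed to `off_diag`. -/
noncomputable def nc (c : ℕ → ℂ) (S : Finset ℕ) (B : ℝ) (n : ℕ) : ℂ :=
  if n ∈ S then c n / B * ((Real.exp (-Real.log n / 2) : ℝ) : ℂ) else 0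

lemma nc_norm_le (c : ℕ → ℂ) (S : Finset ℕ) (B : ℝ) (hB : 0 < B) (hc : ∀ n ∈ S, ‖c n‖ ≤ B)
    (n : ℕ) (hn : 1 ≤ n) : ‖nc c S B n‖ ≤ 1 / Real.sqrt n := by
  unfold nc
  split_ifs with h
  · rw [norm_mul, norm_div, Complex.norm_real, Complex.norm_real, Real.norm_of_nonneg hB.le,
      Real.norm_of_nonneg (Real.exp_pos _).le, MeanA.exp_neg_half_log n hn]
    have h1 : ‖c n‖ / B ≤ 1 := (div_le_one hB).2 (hc n h)
    have h2 : 0 ≤ 1 / Real.sqrt n := by positivity
    nlinarith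
  · simp

lemma nc_sum (c : ℕ → ℂ) (S : Finset ℕ) (B : ℝ) (hB : 0 < B) (N : ℕ)
    (hS : S ⊆ Finset.Icc 1 N) (t : ℝ) :
    (B : ℂ) * ∑ m ∈ Finset.Icc 1 N, nc c S B m * exp (-I * (Real.log m : ℂ) * t) = ds c S t := by
  have hB' : (B : ℂ) ≠ 0 := ofReal_ne_zero.2 hB.ne'
  unfold ds
  rw [← Finset.sum_subset hS, Finset.mul_sum]
  · refine Finset.sum_congr rfl fun n hn => ?_
    unfold nc np
    rw [if_pos hn, ofReal_exp]
    have e : exp (-(1 / 2 + I * (t : ℂ)) * (Real.log n : ℂ)) =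
        exp (((-Real.log n / 2 : ℝ) : ℂ)) * exp (-I * (Real.log n : ℂ) * t) := by
      rw [← exp_add]
      congr 1
      push_cast
      ring
    rw [e]
    field_simp
  · intro n _ hn
    unfold nc
    rw [if_neg hn, zero_mul]

lemma nc_diag (c d : ℕ → ℂ) (S S' : Finset ℕ) (B B' : ℝ) (hB : 0 < B) (hB' : 0 < B') (N : ℕ)
    (hS : S ⊆ Finset.Icc 1 N) :
    ((B : ℂ) * B') * ∑ n ∈ Finset.Icc 1 N, nc c S B n * (starRingEnd ℂ) (nc d S' B' n) =
      ∑ n ∈ S ∩ S', c n * (starRingEnd ℂ) (d n) / n := by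
  have h1 : (B : ℂ) ≠ 0 := ofReal_ne_zero.2 hB.ne'
  have h2 : (B' : ℂ) ≠ 0 := ofReal_ne_zero.2 hB'.ne'
  rw [← Finset.sum_subset (Finset.inter_subset_left.trans hS : S ∩ S' ⊆ _), Finset.mul_sum]
  · refine Finset.sum_congr rfl fun n hn => ?_
    obtain ⟨h3, h4⟩ := Finset.mem_inter.1 hn
    have hn1 : 1 ≤ n := (Finset.mem_Icc.1 (hS h3)).1
    have hn0 : (0 : ℝ) < n := by exact_mod_cast hn1
    unfold nc
    rw [if_pos h3, if_pos h4, map_mul, map_div₀, conj_ofReal, conj_ofReal]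
    have e : ((Real.exp (-Real.log n / 2) : ℝ) : ℂ) * ((Real.exp (-Real.log n / 2) : ℝ) : ℂ) =
        ((n : ℂ))⁻¹ := by
      rw [← ofReal_mul, ← Real.exp_add]
      have : -Real.log n / 2 + -Real.log n / 2 = -Real.log n := by ring
      rw [this, Real.exp_neg, Real.exp_log hn0]
      push_cast
      rfl
    calc _ = c n * (starRingEnd ℂ) (d n) * (((Real.exp (-Real.log n / 2) : ℝ) : ℂ) *
          ((Real.exp (-Real.log n / 2) : ℝ) : ℂ)) := by field_simp
      _ = _ := by rw [e, div_eq_mul_inv]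
  · intro n _ hn
    rw [Finset.mem_inter, not_and_or] at hn
    unfold nc
    rcases hn with hn | hn
    · rw [if_neg hn, zero_mul]
    · rw [if_neg hn, map_zero, mul_zero]

theorem mvt : MvtStmt := by
  obtain ⟨K, hK, h⟩ := off_diag
  refine ⟨K, hK, fun N c d S S' B B' t₁ t₂ hS hS' hB hB' hc hd => ?_⟩
  rcases hB.eq_or_lt with hB | hB
  · have h0 : ∀ n ∈ S, c n = 0 := fun n hn => norm_le_zero_iff.1 (hB ▸ hc n hn)
    have h1 : ∀ t : ℝ, ds c S t = 0 := fun t =>
      Finset.sum_eq_zero fun n hn => by rw [h0 n hn, zero_mul]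
    have h2 : ∑ n ∈ S ∩ S', c n * (starRingEnd ℂ) (d n) / n = 0 :=
      Finset.sum_eq_zero fun n hn => by rw [h0 n (Finset.mem_inter.1 hn).1, zero_mul, zero_div]
    simp [h1, h2, ← hB]
  rcases hB'.eq_or_lt with hB' | hB'
  · have h0 : ∀ n ∈ S', d n = 0 := fun n hn => norm_le_zero_iff.1 (hB' ▸ hd n hn)
    have h1 : ∀ t : ℝ, ds d S' t = 0 := fun t =>
      Finset.sum_eq_zero fun n hn => by rw [h0 n hn, zero_mul]
    have h2 : ∑ n ∈ S ∩ S', c n * (starRingEnd ℂ) (d n) / n = 0 :=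
      Finset.sum_eq_zero fun n hn => by
        rw [h0 n (Finset.mem_inter.1 hn).2, map_zero, mul_zero, zero_div]
    simp [h1, h2, ← hB']
  have key := h N (nc c S B) (nc d S' B') t₁ t₂
    (fun n hn => nc_norm_le c S B hB hc n (Finset.mem_Icc.1 hn).1)
    (fun n hn => nc_norm_le d S' B' hB' hd n (Finset.mem_Icc.1 hn).1)
  have e1 : ∀ t : ℝ, ds c S t * (starRingEnd ℂ) (ds d S' t) = ((B : ℂ) * B') *
      ((∑ m ∈ Finset.Icc 1 N, nc c S B m * exp (-I * (Real.log m : ℂ) * t)) *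
        (starRingEnd ℂ) (∑ n ∈ Finset.Icc 1 N, nc d S' B' n * exp (-I * (Real.log n : ℂ) * t))) := by
    intro t
    rw [← nc_sum c S B hB N hS t, ← nc_sum d S' B' hB' N hS' t, map_mul, conj_ofReal]
    ring
  simp_rw [e1]
  rw [intervalIntegral.integral_const_mul, ← nc_diag c d S S' B B' hB hB' N hS, mul_left_comm,
    ← mul_sub, norm_mul, norm_mul, Complex.norm_real, Complex.norm_real,
    Real.norm_of_nonneg hB.le, Real.norm_of_nonneg hB'.le]
  calc _ ≤ B * B' * (K * N * (1 + Real.log N)) := by gcongr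
    _ = _ := by ring

lemma ds_shift (c : ℕ → ℂ) (S : Finset ℕ) (z : ℂ) (t : ℝ) :
    ds c S (t + z) = ds (fun n => c n * np (I * z) n) S t := by
  unfold ds
  refine Finset.sum_congr rfl fun n _ => ?_
  unfold np
  rw [mul_assoc, ← exp_add]
  congr 2
  ring

lemma norm_np_I (z : ℂ) (n : ℕ) : ‖np (I * z) n‖ = Real.exp (z.im * Real.log n) := by
  unfold np
  rw [norm_exp, mul_comm, re_ofReal_mul]
  congr 1
  simp [mul_comm]

lemma ds_continuous (c : ℕ → ℂ) (S : Finset ℕ) : Continuous fun t : ℝ => ds c S t := by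
  unfold ds np
  fun_prop

lemma ms_nonneg (c : ℕ → ℂ) (S : Finset ℕ) (y : ℝ) : 0 ≤ ms c S y :=
  Finset.sum_nonneg fun _ _ => by positivity

/-- The mean square on a shifted line. -/
lemma mean_sq : ∃ K : ℝ, 0 < K ∧ ∀ (N : ℕ) (c : ℕ → ℂ) (S : Finset ℕ) (z : ℂ) (B t₁ t₂ : ℝ),
    S ⊆ Finset.Icc 1 N → 0 ≤ B → (∀ n ∈ S, ‖c n‖ * Real.exp (z.im * Real.log n) ≤ B) →
    ∫ t in t₁..t₂, ‖ds c S (t + z)‖ ^ 2 ≤
      (t₂ - t₁) * ms c S z.im + K * B * B * N * (1 + Real.log N) := by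
  obtain ⟨K, hK, h⟩ := mvt
  refine ⟨K, hK, fun N c S z B t₁ t₂ hS hB hc => ?_⟩
  have hc' : ∀ n ∈ S, ‖c n * np (I * z) n‖ ≤ B := fun n hn => by
    rw [norm_mul, norm_np_I]; exact hc n hn
  have key := h N _ _ S S B B t₁ t₂ hS hS hB hB hc' hc'
  have e1 : (∫ t in t₁..t₂, ds (fun n => c n * np (I * z) n) S t *
      (starRingEnd ℂ) (ds (fun n => c n * np (I * z) n) S t)) =
      ((∫ t in t₁..t₂, ‖ds c S (t + z)‖ ^ 2 : ℝ) : ℂ) := by
    rw [← intervalIntegral.integral_ofReal]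
    refine intervalIntegral.integral_congr fun t _ => ?_
    rw [ds_shift, mul_conj']
    push_cast
    rfl
  have e2 : ∑ n ∈ S ∩ S, c n * np (I * z) n * (starRingEnd ℂ) (c n * np (I * z) n) / n =
      ((ms c S z.im : ℝ) : ℂ) := by
    rw [Finset.inter_self, ms, ofReal_sum]
    refine Finset.sum_congr rfl fun n hn => ?_
    have hn1 : 1 ≤ n := (Finset.mem_Icc.1 (hS hn)).1
    have hn0 : (0 : ℝ) < n := by exact_mod_cast hn1
    have e : Real.exp ((2 * z.im - 1) * Real.log n) = Real.exp (z.im * Real.log n) ^ 2 / n := by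
      rw [sq, ← Real.exp_add, eq_div_iff hn0.ne']
      nth_rewrite 2 [← Real.exp_log hn0]
      rw [← Real.exp_add]
      congr 1
      ring
    rw [mul_conj', norm_mul, norm_np_I, e]
    push_cast
    ring
  rw [e1, e2, ← ofReal_mul, ← ofReal_sub, Complex.norm_real, Real.norm_eq_abs] at key
  linarith [le_abs_self ((∫ t in t₁..t₂, ‖ds c S (t + z)‖ ^ 2) - (t₂ - t₁) * ms c S z.im)]

lemma ev_log (K ε : ℝ) (hK : 0 < K) (hε : 0 < ε) :
    ∀ᶠ T : ℝ in atTop, K * Real.log T ^ 7 ≤ T ^ (ε / 2) := by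
  have h := (isLittleO_log_rpow_rpow_atTop (7 : ℝ) (half_pos hε)).def (c := 1 / K) (by positivity)
  filter_upwards [h, eventually_ge_atTop 1] with T hT h1
  have hl : 0 ≤ Real.log T := Real.log_nonneg h1
  rw [Real.norm_of_nonneg (by positivity), Real.norm_of_nonneg (by positivity)] at hT
  have e : Real.log T ^ (7 : ℝ) = Real.log T ^ 7 := by
    rw [← Real.rpow_natCast]; norm_num
  rw [e] at hT
  calc K * Real.log T ^ 7 ≤ K * (1 / K * T ^ (ε / 2)) := by gcongr
    _ = _ := by field_simp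

theorem mvt1 : Mvt1Stmt := by
  obtain ⟨K, hK, h⟩ := mean_sq
  intro ε hε
  filter_upwards [ev_log K ε hK hε, eventually_ge_atTop (Real.exp 1)] with T hT hT1
  intro N c S z t₁ t₂ hN hS hc ht
  have hT0 : 0 < T := (Real.exp_pos 1).trans_le hT1
  have hL1 : 1 ≤ Real.log T := (Real.le_log_iff_exp_le hT0).2 hT1
  have hT1' : 1 ≤ T := le_trans (by linarith [Real.add_one_le_exp (1 : ℝ)]) hT1
  rcases lt_or_ge t₂ t₁ with hlt | hle
  · rw [Set.Icc_eq_empty (not_le.2 hlt)]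
    simp
  set L := Real.log T with hL
  set E := Real.exp (L * max z.im 0) with hE
  have hE0 : 0 < E := Real.exp_pos _
  have hNT : (N : ℝ) ≤ T := hN.trans (by
    calc T ^ (1 - ε) ≤ T ^ (1 : ℝ) := Real.rpow_le_rpow_of_exponent_le hT1' (by linarith)
      _ = T := Real.rpow_one T)
  have hlog : ∀ n : ℕ, n ≤ N → Real.log n ≤ L := by
    intro n hn
    rcases Nat.eq_zero_or_pos n with h0 | h0
    · simp [h0]; linarith
    · exact Real.log_le_log (by exact_mod_cast h0) (le_trans (by exact_mod_cast hn) hNT)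
  have hc' : ∀ n ∈ S, ‖c n‖ * Real.exp (z.im * Real.log n) ≤ L ^ 3 * E := by
    intro n hn
    have h1 := hlog n (Finset.mem_Icc.1 (hS hn)).2
    have h2 : 0 ≤ Real.log n := Real.log_natCast_nonneg n
    have h3 : z.im * Real.log n ≤ L * max z.im 0 := by
      calc z.im * Real.log n ≤ max z.im 0 * Real.log n := by gcongr; exact le_max_left _ _
        _ ≤ max z.im 0 * L := by gcongr
        _ = _ := mul_comm _ _
    have h4 := hc n hn
    have h5 : Real.exp (z.im * Real.log n) ≤ E := Real.exp_le_exp.2 h3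
    gcongr
  have key := h N c S z (L ^ 3 * E) t₁ t₂ hS (by positivity) hc'
  have hE2 : Real.exp (2 * L * max z.im 0) = E * E := by
    rw [hE, ← Real.exp_add]
    congr 1
    ring
  rw [hE2]
  have hms := ms_nonneg c S z.im
  have hTe : 0 < T ^ (-(ε / 2)) := Real.rpow_pos_of_pos hT0 _
  set M := ms c S z.im + T ^ (-(ε / 2)) * (E * E) with hM
  have hM0 : 0 < M := by positivity
  have herr : K * (L ^ 3 * E) * (L ^ 3 * E) * N * (1 + Real.log N) ≤
      2 * T * (T ^ (-(ε / 2)) * (E * E)) := by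
    have h1 : 1 + Real.log N ≤ 2 * L := by linarith [hlog N le_rfl]
    have h2 : 0 ≤ 1 + Real.log N := by linarith [Real.log_natCast_nonneg N]
    have h3 : T ^ (ε / 2) * T ^ (1 - ε) = T * T ^ (-(ε / 2)) := by
      rw [← Real.rpow_add hT0]
      nth_rewrite 2 [← Real.rpow_one T]
      rw [← Real.rpow_add hT0]
      congr 1
      ring
    calc _ ≤ K * (L ^ 3 * E) * (L ^ 3 * E) * T ^ (1 - ε) * (2 * L) := by gcongr
      _ = 2 * (K * L ^ 7) * T ^ (1 - ε) * (E * E) := by ring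
      _ ≤ 2 * T ^ (ε / 2) * T ^ (1 - ε) * (E * E) := by gcongr
      _ = 2 * (T ^ (ε / 2) * T ^ (1 - ε)) * (E * E) := by ring
      _ = _ := by rw [h3]; ring
  have hsq : ∫ t in t₁..t₂, ‖ds c S (t + z)‖ ^ 2 ≤ 2 * T * M := by
    have : (t₂ - t₁) * ms c S z.im ≤ 2 * T * ms c S z.im := by gcongr
    rw [hM]
    linarith
  have hcont : Continuous fun t : ℝ => ds c S (t + z) := by
    simp_rw [ds_shift]
    exact ds_continuous _ _
  set lam := √M with hlam
  have hl0 : 0 < lam := Real.sqrt_pos.2 hM0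
  have hl2 : lam * lam = M := Real.mul_self_sqrt hM0.le
  have hint : ∫ t in t₁..t₂, ‖ds c S (t + z)‖ ≤ 2 * T * lam := by
    have h1 : ∫ t in t₁..t₂, ‖ds c S (t + z)‖ ≤
        ∫ t in t₁..t₂, (lam / 2 + 1 / (2 * lam) * ‖ds c S (t + z)‖ ^ 2) := by
      refine intervalIntegral.integral_mono_on hle (hcont.norm.intervalIntegrable _ _)
        (Continuous.intervalIntegrable (by fun_prop) _ _) fun t _ => ?_
      have : lam / 2 + 1 / (2 * lam) * ‖ds c S (t + z)‖ ^ 2 - ‖ds c S (t + z)‖ =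
          (lam - ‖ds c S (t + z)‖) ^ 2 / (2 * lam) := by
        field_simp
        ring
      have h2 : 0 ≤ (lam - ‖ds c S (t + z)‖) ^ 2 / (2 * lam) := by positivity
      linarith
    rw [intervalIntegral.integral_add (Continuous.intervalIntegrable (by fun_prop) _ _)
      (Continuous.intervalIntegrable (by fun_prop) _ _), intervalIntegral.integral_const,
      intervalIntegral.integral_const_mul, smul_eq_mul] at h1
    have h2 : (t₂ - t₁) * (lam / 2) ≤ 2 * T * (lam / 2) := by gcongr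
    have h3 : 1 / (2 * lam) * ∫ t in t₁..t₂, ‖ds c S (t + z)‖ ^ 2 ≤
        1 / (2 * lam) * (2 * T * M) := by gcongr
    have h4 : 1 / (2 * lam) * (2 * T * M) = T * lam := by
      rw [← hl2]
      field_simp
    linarith
  rw [← ofReal_integral_norm_eq_lintegral_enorm (hcont.continuousOn.integrableOn_Icc)]
  refine ENNReal.ofReal_le_ofReal ?_
  rw [integral_Icc_eq_integral_Ioc, ← intervalIntegral.integral_of_le hle]
  exact hint

end Pool.Agent.MP_ca0a54_nt.H40
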